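import Pool.Agent.helper17.MLG.Spec

set_option autoImplicit false

namespace Pool.Agent.MLG

open MeasureTheory Set Filter Topology Module
open scoped ENNReal ContDiff

theorem MCV (hCON : CON_stmt) : MCV_stmt := by
  intro V _ _ _ _ _ _ hV hdim v p w A hv hd hmeas h0 hper hfin hvol hperD
  have hV0 : (vol V (A 0)).toReal = v := by
    rw [h0, ENNReal.toReal_ofReal hv.le]
  have hP0 : (per (A 0)).toReal = Ip V v := by
    rw [hper]
    rfl
  have hd' : HasDerivAt (Ip V) (deriv (Ip V) v) ((vol V (A 0)).toReal) := by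
    rw [hV0]
    exact hd.hasDerivAt
  have hcomp : HasDerivAt (fun t => Ip V ((vol V (A t)).toReal)) (deriv (Ip V) v * w) 0 :=
    HasDerivAt.comp (h₂ := Ip V) (h := fun t => (vol V (A t)).toReal) (0 : ℝ) hd' hvol
  have hg : HasDerivAt (fun t => (per (A t)).toReal - Ip V ((vol V (A t)).toReal)) (p - deriv (Ip V) v * w) 0 :=
    hperD.sub hcomp
  have hpos : ∀ᶠ t in 𝓝 (0 : ℝ), 0 < (vol V (A t)).toReal := by
    have hc := hvol.continuousAt
    have h1 : (0 : ℝ) < (fun t => (vol V (A t)).toReal) 0 := by
      show 0 < (vol V (A 0)).toReal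
      rw [hV0]
      exact hv
    exact hc.eventually_const_lt h1
  have hmin : IsLocalMin (fun t => (per (A t)).toReal - Ip V ((vol V (A t)).toReal)) 0 := by
    filter_upwards [hpos, hfin] with t ht htf
    show (per (A 0)).toReal - Ip V ((vol V (A 0)).toReal) ≤ (per (A t)).toReal - Ip V ((vol V (A t)).toReal)
    rw [hV0, hP0, sub_self, sub_nonneg]
    have htop : vol V (A t) ≠ ⊤ := by
      intro h
      rw [h] at ht
      simp at ht
    have hle : prof V ((vol V (A t)).toReal) ≤ per (A t) := by
      unfold prof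
      exact iInf_le_of_le (A t) (iInf_le_of_le (hmeas t) (iInf_le_of_le (by rw [ENNReal.ofReal_toReal htop]) le_rfl))
    exact ENNReal.toReal_mono htf hle
  have h2 := hmin.hasDerivAt_eq_zero hg
  linarith

end Pool.Agent.MLG
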